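import Mathlib

/-!
Isotypic components of a matrix with respect to an abelian group of symmetries.
-/

set_option autoImplicit false

namespace Pool.Agent.R111.LS

open Finset

section

variable {A X Y : Type*} [AddCommGroup A] [Fintype A] [Fintype X] [Fintype Y]
  [AddAction A X] [AddAction A Y]

/-- the `χ`-component of `F` -/
noncomputable def comp (F : X → Y → ℝ) (χ : AddChar A ℂ) (x : X) (y : Y) : ℂ :=
  ∑ a : A, χ (-a) * (F (a +ᵥ x) y : ℂ)

theorem comp_vadd (F : X → Y → ℝ) (χ : AddChar A ℂ) (b : A) (x : X) (y : Y) :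
    comp F χ (b +ᵥ x) y = χ b * comp F χ x y := by
  unfold comp
  rw [← Equiv.sum_comp (Equiv.addRight (-b)) (fun a : A => χ (-a) * (F (a +ᵥ (b +ᵥ x)) y : ℂ)),
    mul_sum]
  refine sum_congr rfl fun a _ => ?_
  simp only [Equiv.coe_addRight]
  rw [vadd_vadd, neg_add_cancel_right, neg_add, neg_neg, AddChar.map_add_eq_mul]
  ring

theorem sum_comp (F : X → Y → ℝ) (x : X) (y : Y) :
    ∑ χ : AddChar A ℂ, comp F χ x y = Fintype.card A * (F x y : ℂ) := by
  classical
  unfold comp
  rw [sum_comm]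
  have : ∀ a : A, ∑ χ : AddChar A ℂ, χ (-a) * (F (a +ᵥ x) y : ℂ) =
      if a = 0 then (Fintype.card A : ℂ) * (F x y : ℂ) else 0 := by
    intro a
    rw [← sum_mul, AddChar.sum_apply_eq_ite]
    by_cases h : a = 0
    · subst h; simp
    · simp [h]
  simp only [this]
  simp

/-- the real columns have a basis with `rank` elements -/
theorem exists_basis (F : X → Y → ℝ) : ∃ b : Fin (Matrix.of F).rank → X → ℝ,
    ∀ y, ∃ c : Fin (Matrix.of F).rank → ℝ, ∀ x, F x y = ∑ i, c i * b i x := by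
  classical
  set W := Submodule.span ℝ (Set.range (Matrix.of F).col) with hW
  have hr : (Matrix.of F).rank = Module.finrank ℝ W := Matrix.rank_eq_finrank_span_cols _
  let B : Module.Basis (Fin (Matrix.of F).rank) ℝ W :=
    (Module.finBasis ℝ W).reindex (finCongr hr.symm)
  refine ⟨fun i => (B i : X → ℝ), fun y => ?_⟩
  have hy : (Matrix.of F).col y ∈ W := Submodule.subset_span ⟨y, rfl⟩
  refine ⟨fun i => B.repr ⟨_, hy⟩ i, fun x => ?_⟩
  have h := B.sum_repr ⟨_, hy⟩
  have h2 := congrArg (fun w : W => (w : X → ℝ) x) h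
  simp only [Submodule.coe_sum, Submodule.coe_smul, Finset.sum_apply, Pi.smul_apply,
    smul_eq_mul] at h2
  rw [h2]
  rfl

theorem card_support_le (F : X → Y → ℝ) (hA : ∀ (a : A) x y, F (a +ᵥ x) (a +ᵥ y) = F x y)
    (S : Finset (AddChar A ℂ)) (hS : ∀ χ ∈ S, ∃ x y, comp F χ x y ≠ 0) :
    S.card ≤ (Matrix.of F).rank := by
  classical
  obtain ⟨b, hb⟩ := exists_basis F
  set W : Submodule ℂ (X → ℂ) :=
    Submodule.span ℂ (Set.range fun i => fun x => (b i x : ℂ)) with hW
  have hWr : Module.finrank ℂ W ≤ (Matrix.of F).rank := by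
    have := finrank_range_le_card (R := ℂ) (fun i => fun x : X => (b i x : ℂ))
    simpa [Set.finrank] using this
  have hcol : ∀ y, (fun x => (F x y : ℂ)) ∈ W := by
    intro y
    obtain ⟨c, hc⟩ := hb y
    have : (fun x => (F x y : ℂ)) = ∑ i, (c i : ℂ) • (fun x => (b i x : ℂ)) := by
      funext x
      rw [hc]
      simp
    rw [this]
    exact Submodule.sum_mem _ fun i _ => Submodule.smul_mem _ _ (Submodule.subset_span ⟨i, rfl⟩)
  have hmem : ∀ (χ : AddChar A ℂ) y, (fun x => comp F χ x y) ∈ W := by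
    intro χ y
    have : (fun x => comp F χ x y) = ∑ a : A, χ (-a) • (fun x => (F x ((-a) +ᵥ y) : ℂ)) := by
      funext x
      simp only [comp, Finset.sum_apply, Pi.smul_apply, smul_eq_mul]
      refine sum_congr rfl fun a _ => ?_
      rw [← hA (-a) (a +ᵥ x) y, neg_vadd_vadd]
    rw [this]
    exact Submodule.sum_mem _ fun a _ => Submodule.smul_mem _ _ (hcol _)
  have hS' : ∀ χ : S, ∃ x y, comp F χ.1 x y ≠ 0 := fun χ => hS χ.1 χ.2
  choose px py hp using hS'
  have hli : LinearIndependent ℂ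
      (fun χ : S => (⟨fun x => comp F χ.1 x (py χ), hmem _ _⟩ : W)) := by
    rw [Fintype.linearIndependent_iff]
    intro g hg
    have hg' : ∀ x, ∑ χ : S, g χ * comp F χ.1 x (py χ) = 0 := by
      intro x
      have := congrArg (fun w : W => (w : X → ℂ) x) hg
      simpa [Submodule.coe_sum] using this
    intro χ₀
    -- Dedekind
    have hD := (AddChar.linearIndependent A ℂ).comp (fun χ : S => χ.1) Subtype.val_injective
    rw [Fintype.linearIndependent_iff] at hD
    have h0 := hD (fun χ : S => g χ * comp F χ.1 (px χ₀) (py χ)) (by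
      funext a
      simp only [Finset.sum_apply, Pi.smul_apply, smul_eq_mul, Pi.zero_apply, Function.comp]
      rw [← hg' (a +ᵥ px χ₀)]
      refine sum_congr rfl fun χ _ => ?_
      rw [comp_vadd]
      ring) χ₀
    exact (mul_eq_zero.1 h0).resolve_right (hp χ₀)
  have h := hli.fintype_card_le_finrank
  rw [Fintype.card_coe] at h
  exact h.trans hWr

/-- **Core lemma.** -/
theorem core {Γ : Type*} (F : X → Y → ℝ) (hA : ∀ (a : A) x y, F (a +ᵥ x) (a +ᵥ y) = F x y)
    (θ : Γ → A ≃+ A) (σ : Γ → X ≃ X) (τ : Γ → Y ≃ Y)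
    (h1 : ∀ g (a : A) x, σ g (a +ᵥ x) = θ g a +ᵥ σ g x) (h2 : ∀ g x y, F (σ g x) (τ g y) = F x y)
    (a : A) (ha : ∀ χ : AddChar A ℂ,
      (Set.range fun g => χ.compAddMonoidHom (θ g).toAddMonoidHom).ncard ≤ (Matrix.of F).rank →
        χ a = 1) (x : X) (y : Y) : F (a +ᵥ x) y = F x y := by
  classical
  have hconj : ∀ (χ : AddChar A ℂ) g x y, comp F χ (σ g x) (τ g y) =
      comp F (χ.compAddMonoidHom (θ g).toAddMonoidHom) x y := by
    intro χ g x y
    unfold comp
    rw [← Equiv.sum_comp (θ g).toEquiv (fun a : A => χ (-a) * (F (a +ᵥ σ g x) (τ g y) : ℂ))]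
    refine sum_congr rfl fun b _ => ?_
    have e1 : (θ g).toEquiv b = θ g b := rfl
    rw [e1, ← h1, h2]
    congr 1
    simp [AddChar.compAddMonoidHom_apply, map_neg]
  have hsupp : ∀ χ : AddChar A ℂ, (∃ x y, comp F χ x y ≠ 0) → χ a = 1 := by
    intro χ hχ
    apply ha
    obtain ⟨x₀, y₀, h0⟩ := hχ
    set O : Set (AddChar A ℂ) := Set.range fun g => χ.compAddMonoidHom (θ g).toAddMonoidHom
    have hfin : O.Finite := Set.toFinite _
    rw [Set.ncard_eq_toFinset_card O hfin]
    refine card_support_le F hA _ ?_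
    intro ω hω
    rw [Set.Finite.mem_toFinset] at hω
    obtain ⟨g, rfl⟩ := hω
    refine ⟨(σ g).symm x₀, (τ g).symm y₀, ?_⟩
    have := hconj χ g ((σ g).symm x₀) ((τ g).symm y₀)
    rw [Equiv.apply_symm_apply, Equiv.apply_symm_apply] at this
    rw [← this]
    exact h0
  have h3 : (Fintype.card A : ℂ) * (F (a +ᵥ x) y : ℂ) = Fintype.card A * (F x y : ℂ) := by
    rw [← sum_comp, ← sum_comp]
    refine sum_congr rfl fun χ _ => ?_
    rw [comp_vadd]
    by_cases h : comp F χ x y = 0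
    · rw [h, mul_zero]
    · rw [hsupp χ ⟨x, y, h⟩, one_mul]
  have hc : (Fintype.card A : ℂ) ≠ 0 := by
    have : (Fintype.card A) ≠ 0 := Fintype.card_ne_zero
    exact_mod_cast this
  have := mul_left_cancel₀ hc h3
  exact_mod_cast this

/-- If `θ` is closed under composition and transitive on the nonzero elements then every nontrivial
character has at least `|A| - 1` conjugates. -/
theorem orbit_card {Γ : Type*} (θ : Γ → A ≃+ A)
    (hmul : ∀ g h, ∃ k, ∀ a, θ k a = θ g (θ h a)) [Nonempty Γ]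
    (htr : ∀ a b : A, a ≠ 0 → b ≠ 0 → ∃ g, θ g a = b) (χ : AddChar A ℂ) (hχ : χ ≠ 0) :
    Fintype.card A - 1 ≤
      (Set.range fun g => χ.compAddMonoidHom (θ g).toAddMonoidHom).ncard := by
  classical
  set f : Γ → AddChar A ℂ := fun g => χ.compAddMonoidHom (θ g).toAddMonoidHom with hf
  have hfin : (Set.range f).Finite := Set.toFinite _
  rw [Set.ncard_eq_toFinset_card _ hfin]
  set O := hfin.toFinset with hO
  have hfv : ∀ g a, f g a = χ (θ g a) := fun g a => rfl
  have hOmem : ∀ ω, ω ∈ O ↔ ∃ g, f g = ω := by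
    intro ω; simp [hO]
  have hO0 : ∀ ω ∈ O, ω ≠ 0 := by
    intro ω hω h0
    obtain ⟨g, rfl⟩ := (hOmem ω).1 hω
    apply hχ
    ext a
    have := congrArg (fun ψ : AddChar A ℂ => ψ ((θ g).symm a)) h0
    simpa [hfv] using this
  set φ : A → ℂ := fun v => ∑ ω ∈ O, ω v with hφ
  have hinv : ∀ h v, φ (θ h v) = φ v := by
    intro h v
    have hinj : Function.Injective
        (fun ω : AddChar A ℂ => ω.compAddMonoidHom (θ h).toAddMonoidHom) := by
      intro ω ω' hω
      ext a
      have := congrArg (fun ψ : AddChar A ℂ => ψ ((θ h).symm a)) hω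
      simpa using this
    have himg : O.image (fun ω : AddChar A ℂ => ω.compAddMonoidHom (θ h).toAddMonoidHom) = O := by
      apply Finset.eq_of_subset_of_card_le
      · intro ω hω
        obtain ⟨ω', hω', rfl⟩ := Finset.mem_image.1 hω
        obtain ⟨g, rfl⟩ := (hOmem ω').1 hω'
        obtain ⟨k, hk⟩ := hmul g h
        refine (hOmem _).2 ⟨k, ?_⟩
        ext a
        simp [hfv, hk]
      · rw [Finset.card_image_of_injective _ hinj]
    simp only [hφ]
    conv_rhs => rw [← himg]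
    rw [Finset.sum_image (fun _ _ _ _ h => hinj h)]
    rfl
  obtain ⟨v₀, hv₀⟩ : ∃ v₀ : A, v₀ ≠ 0 := by
    by_contra hc
    push Not at hc
    apply hχ
    ext a
    rw [hc a]
    simp
  set c := φ v₀ with hc
  have hcv : ∀ v, v ≠ 0 → φ v = c := by
    intro v hv
    obtain ⟨g, hg⟩ := htr v₀ v hv₀ hv
    rw [← hg, hinv]
  have h0 : φ 0 = O.card := by
    simp [hφ]
  set q : ℂ := (Fintype.card A : ℂ) with hq
  have hsum : ∀ (u : A → ℂ) (d : ℂ), (∀ v, v ≠ 0 → u v = d) → ∑ v, u v = u 0 + (q - 1) * d := by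
    intro u d hu
    rw [← Finset.add_sum_erase _ _ (Finset.mem_univ (0 : A))]
    congr 1
    rw [Finset.sum_congr rfl (fun v hv => hu v (Finset.ne_of_mem_erase hv)), Finset.sum_const,
      Finset.card_erase_of_mem (Finset.mem_univ _), Finset.card_univ, nsmul_eq_mul,
      Nat.cast_sub Fintype.card_pos]
    simp [hq]
  have hs1 : (O.card : ℂ) + (q - 1) * c = 0 := by
    rw [← h0, ← hsum φ c hcv]
    simp only [hφ]
    rw [Finset.sum_comm]
    refine Finset.sum_eq_zero fun ω hω => ?_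
    rw [AddChar.sum_eq_ite, if_neg (hO0 ω hω)]
  have hs2 : (O.card : ℂ) * O.card + (q - 1) * (c * c) = q * O.card := by
    have e1 := hsum (fun v => φ v * φ (-v)) (c * c) (fun v hv => by
      rw [hcv v hv, hcv (-v) (neg_ne_zero.2 hv)])
    simp only [neg_zero, h0] at e1
    rw [← e1]
    have e2 : ∀ v, φ v * φ (-v) = ∑ ω ∈ O, ∑ ω' ∈ O, (ω - ω') v := by
      intro v
      simp only [hφ]
      rw [Finset.sum_mul_sum]
      refine Finset.sum_congr rfl fun ω _ => Finset.sum_congr rfl fun ω' _ => ?_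
      rw [AddChar.sub_apply]
    simp only [e2]
    rw [Finset.sum_comm]
    have e3 : ∀ ω ∈ O, ∑ v, ∑ ω' ∈ O, (ω - ω') v = q := by
      intro ω hω
      rw [Finset.sum_comm]
      simp only [AddChar.sum_eq_ite, sub_eq_zero]
      rw [Finset.sum_ite_eq, if_pos hω]
    rw [Finset.sum_congr rfl e3, Finset.sum_const, nsmul_eq_mul, mul_comm]
  have hO1 : O.Nonempty := by
    obtain ⟨g⟩ := ‹Nonempty Γ›
    exact ⟨f g, (hOmem _).2 ⟨g, rfl⟩⟩
  have ho : (O.card : ℂ) ≠ 0 := by
    have : O.card ≠ 0 := Finset.card_ne_zero.2 hO1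
    exact_mod_cast this
  have hq0 : q ≠ 0 := by
    have : Fintype.card A ≠ 0 := Fintype.card_ne_zero
    rw [hq]
    exact_mod_cast this
  have e4 : (q - 1) * c = -(O.card : ℂ) := by linear_combination hs1
  have e5 : (q * (O.card : ℂ)) * ((O.card : ℂ) - (q - 1)) = 0 := by
    have : (q - 1) * ((O.card : ℂ) * O.card + (q - 1) * (c * c)) = (q - 1) * (q * O.card) := by
      rw [hs2]
    linear_combination this - ((q - 1) * c - (O.card : ℂ)) * e4
  have e6 : (O.card : ℂ) - (q - 1) = 0 := (mul_eq_zero.1 e5).resolve_left (mul_ne_zero hq0 ho)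
  have e7 : ((O.card + 1 : ℕ) : ℂ) = (Fintype.card A : ℕ) := by
    push_cast
    linear_combination e6
  have e8 : O.card + 1 = Fintype.card A := by exact_mod_cast e7
  omega

end

end Pool.Agent.R111.LS
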