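import Pool.Agent.R111.LS.Core

/-!
Invariant matrices whose symmetry group contains a general linear group.
-/

set_option autoImplicit false

namespace Pool.Agent.R111.LS

open Module

section

variable {K V : Type*} [Field K] [AddCommGroup V] [Module K V]

theorem exists_common (f g : Dual K V) (hf : f ≠ 0) (hg : g ≠ 0) : ∃ w, g w = 1 ∧ f w ≠ 0 := by
  obtain ⟨a, ha⟩ : ∃ a, f a ≠ 0 := by
    by_contra h; push Not at h; exact hf (LinearMap.ext h)
  obtain ⟨b, hb⟩ : ∃ b, g b ≠ 0 := by
    by_contra h; push Not at h; exact hg (LinearMap.ext h)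
  have key : ∃ w, g w ≠ 0 ∧ f w ≠ 0 := by
    by_cases h1 : g a = 0
    · by_cases h2 : f b = 0
      · exact ⟨a + b, by simpa [h1] using hb, by simpa [h2] using ha⟩
      · exact ⟨b, hb, h2⟩
    · exact ⟨a, h1, ha⟩
  obtain ⟨w, h1, h2⟩ := key
  exact ⟨(g w)⁻¹ • w, by simp [h1], by simp [h1, h2]⟩

/-- the functionals vanishing at `u` -/
abbrev Ann (K : Type*) {V : Type*} [Field K] [AddCommGroup V] [Module K V] (u : V) :
    Submodule K (Dual K V) := LinearMap.ker (Dual.eval K V u)

theorem ann_apply {u : V} (f : Ann K u) : f.1 u = 0 := f.2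

/-- the action of the stabilizer of `u` on the functionals vanishing at `u` -/
def thetaAnn (u : V) (h : {h : V ≃ₗ[K] V // h u = u}) : Ann K u ≃+ Ann K u where
  toFun f := ⟨f.1.comp h.1.symm.toLinearMap, by
    have : h.1.symm u = u := by rw [LinearEquiv.symm_apply_eq]; exact h.2.symm
    show f.1 (h.1.symm u) = 0
    rw [this]; exact f.2⟩
  invFun f := ⟨f.1.comp h.1.toLinearMap, by
    show f.1 (h.1 u) = 0
    rw [h.2]; exact f.2⟩
  left_inv f := by ext x; simp
  right_inv f := by ext x; simp
  map_add' f g := by ext x; simp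

theorem thetaAnn_trans (u : V) (f g : Ann K u) (hf : f ≠ 0) (hg : g ≠ 0) :
    ∃ h, thetaAnn u h f = g := by
  obtain ⟨w, hw1, hw2⟩ := exists_common f.1 g.1 (fun h => hf (Subtype.ext h))
    (fun h => hg (Subtype.ext h))
  have hu : IsUnit (1 + (f.1 - g.1) w) := by
    rw [LinearMap.sub_apply, hw1]
    simpa using hw2
  have hfix : LinearEquiv.dilatransvection hu u = u := by
    rw [LinearEquiv.dilatransvection.apply]
    simp [(ann_apply f), (ann_apply g)]
  refine ⟨⟨LinearEquiv.dilatransvection hu, hfix⟩, ?_⟩
  ext x
  show f.1 ((LinearEquiv.dilatransvection hu).symm x) = g.1 x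
  obtain ⟨z, rfl⟩ := (LinearEquiv.dilatransvection hu).surjective x
  rw [LinearEquiv.symm_apply_apply, LinearEquiv.dilatransvection.apply]
  simp [hw1]

theorem card_Ann [Fintype K] [Finite V] (u : V) (hu : u ≠ 0) [Fintype (Ann K u)] :
    Fintype.card (Ann K u) = Fintype.card K ^ (finrank K V - 1) := by
  have : Module.Finite K V := Module.Finite.of_finite
  have h0 : Dual.eval K V u ≠ 0 := by
    rw [Ne, Module.eval_apply_eq_zero_iff]; exact hu
  have h : finrank K (Ann K u) + 1 = finrank K (Dual K V) :=
    Module.Dual.finrank_ker_add_one_of_ne_zero h0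
  have h2 : finrank K (Dual K V) = finrank K V := Subspace.dual_finrank_eq
  rw [Module.card_eq_pow_finrank (K := K)]
  congr 1
  omega

variable {G X Y : Type*} [Group G] [MulAction G X] [MulAction G Y] [Fintype X] [Fintype Y]

theorem transvection_trivial [Fintype K] [Finite V] (φ : (V ≃ₗ[K] V) →* G) (F : X → Y → ℝ)
    (hF : ∀ (g : G) x y, F (g • x) (g • y) = F x y)
    (hr : (Matrix.of F).rank + 1 < Fintype.card K ^ (finrank K V - 1))
    (e : V ≃ₗ[K] V) (he : e ∈ LinearEquiv.transvections K V) (x : X) (y : Y) :
    F (φ e • x) y = F x y := by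
  classical
  obtain ⟨f, u, hfu, rfl⟩ := he
  by_cases hu : u = 0
  · subst hu
    have : LinearEquiv.transvection hfu = 1 := LinearEquiv.transvection.of_right_eq_zero f hfu
    rw [this, map_one, one_smul]
  have : Finite (Dual K V) := Module.finite_of_finite K
  have : Fintype (Ann K u) := Fintype.ofFinite _
  have one_eq : ∀ (f : Ann K u), LinearEquiv.transvection (ann_apply f) ∈ LinearEquiv.transvections K V :=
    fun f => LinearEquiv.mem_transvections _
  have hz : LinearEquiv.transvection (ann_apply (0 : Ann K u)) = 1 := by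
    ext z
    simp [LinearEquiv.transvection.apply]
  have ha : ∀ f g : Ann K u, LinearEquiv.transvection (ann_apply (f + g)) =
      LinearEquiv.transvection (ann_apply f) * LinearEquiv.transvection (ann_apply g) := by
    intro f g
    ext z
    simp only [LinearEquiv.mul_apply, LinearEquiv.transvection.apply]
    simp [ann_apply f, add_smul]
    try abel
  letI iX : AddAction (Ann K u) X :=
    { vadd := fun f x => φ (LinearEquiv.transvection (ann_apply f)) • x
      zero_vadd := fun x => by
        show φ (LinearEquiv.transvection (ann_apply (0 : Ann K u))) • x = x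
        rw [hz, map_one, one_smul]
      add_vadd := fun f g x => by
        show φ (LinearEquiv.transvection (ann_apply (f + g))) • x =
          φ (LinearEquiv.transvection (ann_apply f)) • φ (LinearEquiv.transvection (ann_apply g)) • x
        rw [smul_smul, ← map_mul, ha] }
  letI iY : AddAction (Ann K u) Y :=
    { vadd := fun f x => φ (LinearEquiv.transvection (ann_apply f)) • x
      zero_vadd := fun x => by
        show φ (LinearEquiv.transvection (ann_apply (0 : Ann K u))) • x = x
        rw [hz, map_one, one_smul]
      add_vadd := fun f g x => by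
        show φ (LinearEquiv.transvection (ann_apply (f + g))) • x =
          φ (LinearEquiv.transvection (ann_apply f)) • φ (LinearEquiv.transvection (ann_apply g)) • x
        rw [smul_smul, ← map_mul, ha] }
  have hcore := core (A := Ann K u) (Γ := {h : V ≃ₗ[K] V // h u = u}) F
    (fun a x y => hF _ x y) (thetaAnn u)
    (fun h => MulAction.toPerm (φ h.1)) (fun h => MulAction.toPerm (φ h.1))
    (fun h a x => by
      show φ h.1 • φ (LinearEquiv.transvection (ann_apply a)) • x =
        φ (LinearEquiv.transvection (ann_apply (thetaAnn u h a))) • φ h.1 • x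
      rw [smul_smul, smul_smul, ← map_mul, ← map_mul]
      congr 2
      ext z
      simp only [LinearEquiv.mul_apply, LinearEquiv.transvection.apply, map_add, map_smul, h.2]
      congr 2
      show a.1 z = a.1 (h.1.symm (h.1 z))
      rw [LinearEquiv.symm_apply_apply])
    (fun h x y => hF _ x y) ⟨f, hfu⟩ (fun χ hχ => by
      by_contra hne
      have hχ0 : χ ≠ 0 := by
        rintro rfl
        exact hne rfl
      have : Nonempty {h : V ≃ₗ[K] V // h u = u} := ⟨⟨1, rfl⟩⟩
      have h3 := orbit_card (A := Ann K u) (thetaAnn u) (fun g h => ⟨⟨g.1 * h.1, by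
          show g.1 (h.1 u) = u
          rw [h.2, g.2]⟩, fun a => by
            ext z
            rfl⟩) (thetaAnn_trans u) χ hχ0
      rw [card_Ann u hu] at h3
      omega) x y
  exact hcore

/-- the symmetries which act trivially on the rows -/
def rowKer (F : X → Y → ℝ) (hF : ∀ (g : G) x y, F (g • x) (g • y) = F x y) : Subgroup G where
  carrier := {g | ∀ x y, F (g • x) y = F x y}
  mul_mem' := by
    intro a b ha hb x y
    rw [mul_smul, ha, hb]
  one_mem' := by intro x y; rw [one_smul]
  inv_mem' := by
    intro a ha x y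
    rw [← ha, smul_inv_smul]

theorem rowKer_normal (F : X → Y → ℝ) (hF : ∀ (g : G) x y, F (g • x) (g • y) = F x y) :
    (rowKer F hF).Normal := by
  refine ⟨fun n hn g x y => ?_⟩
  rw [mul_smul, mul_smul, ← hF g⁻¹, inv_smul_smul, hn, ← hF g, smul_inv_smul, smul_inv_smul]

/-- **Symmetry groups with a general linear group.** -/
theorem normalClosure_trivial [Fintype K] [Finite V] (φ : (V ≃ₗ[K] V) →* G) (F : X → Y → ℝ)
    (hF : ∀ (g : G) x y, F (g • x) (g • y) = F x y)
    (hr : (Matrix.of F).rank + 1 < Fintype.card K ^ (finrank K V - 1))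
    (g : G) (hg : g ∈ Subgroup.normalClosure (φ '' LinearEquiv.transvections K V))
    (x : X) (y : Y) : F (g • x) y = F x y := by
  have hN := rowKer_normal F hF
  have : Subgroup.normalClosure (φ '' LinearEquiv.transvections K V) ≤ rowKer F hF := by
    refine Subgroup.normalClosure_le_normal ?_
    rintro _ ⟨e, he, rfl⟩
    exact fun x y => transvection_trivial φ F hF hr e he x y
  exact this hg x y

end

end Pool.Agent.R111.LS
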