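import Pool.Agent.R111.LS.Tensor
import Pool.Agent.H630R2.LR.M1

/-!
Normal abelian subgroups, and protocols from classes of rows.
-/

set_option autoImplicit false

namespace Pool.Agent.R111.LS

open Module

section

variable {Γ X Y : Type*} [Group Γ] [MulAction Γ X] [MulAction Γ Y] [Fintype X] [Fintype Y]

theorem normal_abelian (A : Subgroup Γ) [A.Normal] [Finite A]
    (hc : ∀ a ∈ A, ∀ b ∈ A, a * b = b * a) (F : X → Y → ℝ)
    (hF : ∀ (g : Γ) x y, F (g • x) (g • y) = F x y) (a : A)
    (ha : ∀ χ : A →* ℂ, (Set.range fun g : Γ =>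
      χ.comp (MulAut.conjNormal g).toMonoidHom).ncard ≤ (Matrix.of F).rank → χ a = 1)
    (x : X) (y : Y) : F ((a : Γ) • x) y = F x y := by
  classical
  letI iC : CommGroup A :=
    { (inferInstance : Group A) with
      mul_comm := fun a b => Subtype.ext (hc a.1 a.2 b.1 b.2) }
  have : Fintype A := Fintype.ofFinite _
  letI iX : AddAction (Additive A) X :=
    { vadd := fun a x => (a.toMul : Γ) • x
      zero_vadd := fun x => one_smul Γ x
      add_vadd := fun a b x => mul_smul (a.toMul : Γ) (b.toMul : Γ) x }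
  letI iY : AddAction (Additive A) Y :=
    { vadd := fun a x => (a.toMul : Γ) • x
      zero_vadd := fun x => one_smul Γ x
      add_vadd := fun a b x => mul_smul (a.toMul : Γ) (b.toMul : Γ) x }
  let θ : Γ → Additive A ≃+ Additive A := fun g => MulEquiv.toAdditive (MulAut.conjNormal g : A ≃* A)
  have hθ : ∀ g (b : A), θ g (Additive.ofMul b) = Additive.ofMul (MulAut.conjNormal g b) :=
    fun g b => rfl
  refine core (A := Additive A) (Γ := Γ) F (fun a x y => hF _ x y) θ
    (fun g => MulAction.toPerm g) (fun g => MulAction.toPerm g)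
    (fun g b x => ?_) (fun g x y => hF g x y) (Additive.ofMul a) (fun χ hχ => ?_) x y
  · show g • (b.toMul : Γ) • x = ((MulAut.conjNormal g b.toMul : A) : Γ) • g • x
    rw [MulAut.conjNormal_apply, smul_smul, smul_smul]
    congr 1
    group
  · let J : AddChar (Additive A) ℂ → (A →* ℂ) := fun ψ =>
      { toFun := fun b => ψ (Additive.ofMul b)
        map_one' := AddChar.map_zero_eq_one ψ
        map_mul' := fun b c => AddChar.map_add_eq_mul ψ _ _ }
    have hJ : Function.Injective J := by
      intro ψ ψ' h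
      ext b
      exact congrArg (fun ω : A →* ℂ => ω b.toMul) h
    have h1 := ha (J χ) (by
      refine le_trans (le_of_eq ?_) hχ
      rw [← Set.ncard_image_of_injective _ hJ, ← Set.range_comp]
      congr 1)
    exact h1

end

section

open Pool.Agent.H630R2.LR

variable {X Y Q : Type*} [Fintype Q]

theorem proto_of_classes (F : X → Y → Bool) (α : X → Q)
    (hα : ∀ x x', α x = α x' → ∀ y, F x y = F x' y) (w : ℕ) (hw : Fintype.card Q ≤ 2 ^ w) :
    Proto F (1 + w) := by
  classical
  refine Proto.sendX F α w hw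
    (fun q _ y => decide (∃ x', α x' = q ∧ F x' y = true)) 1 (fun q => ?_) (fun x y => ?_)
  · exact Proto.bob _ (fun y => decide (∃ x', α x' = q ∧ F x' y = true)) (fun v _ _ => v) 0
      (fun v => Proto.const _ v fun _ _ => rfl) (fun _ _ => rfl)
  · by_cases hx : F x y = true
    · rw [hx]
      exact (decide_eq_true ⟨x, rfl, hx⟩).symm
    · have hx' : F x y = false := by simpa using hx
      rw [hx']
      refine (decide_eq_false ?_).symm
      rintro ⟨x', h1, h2⟩
      exact hx ((hα x' x h1 y).symm.trans h2)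

theorem cost_of_classes (F : X → Y → Bool) (α : X → Q)
    (hα : ∀ x x', α x = α x' → ∀ y, F x y = F x' y) :
    ∃ c : ℕ, Proto F c ∧ (c : ℝ) ≤ Real.logb 2 (Fintype.card Q) + 2 := by
  refine ⟨1 + Nat.clog 2 (Fintype.card Q),
    proto_of_classes F α hα _ (Nat.le_pow_clog (by norm_num) _), ?_⟩
  have h := Real.natCeil_logb_natCast 2 (Fintype.card Q)
  rw [← h]
  have h0 : 0 ≤ Real.logb 2 (Fintype.card Q : ℝ) := by
    rcases Nat.eq_zero_or_pos (Fintype.card Q) with h | h
    · simp [h]
    · exact Real.logb_nonneg (by norm_num) (by exact_mod_cast h)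
  have := Nat.ceil_lt_add_one h0
  push_cast
  linarith

end

end Pool.Agent.R111.LS
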