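import Pool.Agent.R111.LS.GL

/-!
Tensors over finite fields.
-/

set_option autoImplicit false

namespace Pool.Agent.R111.LS

open Module

section

variable {K : Type*} [Field K] {I : Type*} [DecidableEq I] {n : I → ℕ}

/-- the linear map `e` applied to the tensor `T` in the direction `i` -/
def act (i : I) (e : (Fin (n i) → K) →ₗ[K] (Fin (n i) → K)) (T : (∀ i, Fin (n i)) → K) :
    (∀ i, Fin (n i)) → K :=
  fun j => e (fun l => T (Function.update j i l)) (j i)

theorem act_comp (i : I) (e e' : (Fin (n i) → K) →ₗ[K] (Fin (n i) → K))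
    (T : (∀ i, Fin (n i)) → K) : act i e (act i e' T) = act i (e ∘ₗ e') T := by
  funext j
  simp [act, Function.update_idem]

theorem act_id (i : I) (T : (∀ i, Fin (n i)) → K) : act i LinearMap.id T = T := by
  funext j
  simp [act]

theorem act_add (i : I) (e : (Fin (n i) → K) →ₗ[K] (Fin (n i) → K)) (T U : (∀ i, Fin (n i)) → K) :
    act i e (T + U) = act i e T + act i e U := by
  funext j
  simp only [act, Pi.add_apply]
  rw [← Pi.add_apply (e _), ← map_add]
  rfl

/-- the action of the invertible linear maps in the direction `i` -/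
def thetaT (i : I) (e : (Fin (n i) → K) ≃ₗ[K] (Fin (n i) → K)) :
    ((∀ i, Fin (n i)) → K) ≃+ ((∀ i, Fin (n i)) → K) where
  toFun := act i e.toLinearMap
  invFun := act i e.symm.toLinearMap
  left_inv T := by
    rw [act_comp]
    have : e.symm.toLinearMap ∘ₗ e.toLinearMap = LinearMap.id := by ext; simp
    rw [this, act_id]
  right_inv T := by
    rw [act_comp]
    have : e.toLinearMap ∘ₗ e.symm.toLinearMap = LinearMap.id := by ext; simp
    rw [this, act_id]
  map_add' := act_add i _

theorem vec_trans {V : Type*} [AddCommGroup V] [Module K V] [Module.Finite K V] (v w : V)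
    (hv : v ≠ 0) (hw : w ≠ 0) : ∃ e : V ≃ₗ[K] V, e v = w := by
  obtain ⟨f, h1, h2⟩ := exists_common (Dual.eval K V w) (Dual.eval K V v)
    (by rw [Ne, Module.eval_apply_eq_zero_iff]; exact hw)
    (by rw [Ne, Module.eval_apply_eq_zero_iff]; exact hv)
  simp only [Dual.eval_apply] at h1 h2
  have hu : IsUnit (1 + f (w - v)) := by
    rw [map_sub, h1]
    simpa using h2
  refine ⟨LinearEquiv.dilatransvection hu, ?_⟩
  rw [LinearEquiv.dilatransvection.apply, h1]
  simp

variable [Fintype K] [Fintype I]

/-- the fibre through `j₀` in the direction `i` -/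
def iota (i : I) (j₀ : ∀ i, Fin (n i)) : (Fin (n i) → K) →+ ((∀ i, Fin (n i)) → K) where
  toFun v := fun j => if Function.update j i (j₀ i) = j₀ then v (j i) else 0
  map_zero' := by funext j; simp
  map_add' v w := by
    funext j
    simp only [Pi.add_apply]
    split_ifs <;> simp

theorem act_iota (i : I) (j₀ : ∀ i, Fin (n i)) (e : (Fin (n i) → K) ≃ₗ[K] (Fin (n i) → K))
    (v : Fin (n i) → K) : thetaT i e (iota i j₀ v) = iota i j₀ (e v) := by
  funext j
  show e (fun l => (if Function.update (Function.update j i l) i (j₀ i) = j₀ then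
    v (Function.update j i l i) else 0)) (j i) = if Function.update j i (j₀ i) = j₀ then e v (j i) else 0
  simp only [Function.update_idem, Function.update_self]
  split_ifs with h
  · rfl
  · have : (fun _ : Fin (n i) => (0 : K)) = 0 := rfl
    rw [this, map_zero]
    rfl

theorem tensor_orbit (i : I) (χ : AddChar ((∀ i, Fin (n i)) → K) ℂ) (hχ : χ ≠ 0) :
    Fintype.card K ^ n i - 1 ≤
      (Set.range fun e : (Fin (n i) → K) ≃ₗ[K] (Fin (n i) → K) =>
        χ.compAddMonoidHom (thetaT i e).toAddMonoidHom).ncard := by
  classical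
  obtain ⟨j₀, hj⟩ : ∃ j₀ : (∀ i, Fin (n i)), χ.compAddMonoidHom (iota i j₀) ≠ 0 := by
    by_contra hc
    push Not at hc
    apply hχ
    ext T
    have hT : T = ∑ j, Pi.single j (T j) := by
      rw [Finset.univ_sum_single]
    have : ∀ j, χ (Pi.single j (T j)) = 1 := by
      intro j
      have e1 : (Pi.single j (T j) : (∀ i, Fin (n i)) → K) =
          iota i j (Pi.single (j i) (T j)) := by
        funext j'
        show _ = if Function.update j' i (j i) = j then (Pi.single (j i) (T j) : Fin (n i) → K) (j' i)
          else 0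
        by_cases h : j' = j
        · subst h
          simp
        · rw [Pi.single_eq_of_ne h]
          split_ifs with h2
          · rw [Pi.single_eq_of_ne]
            intro h3
            apply h
            rw [← h2, ← h3, Function.update_eq_self]
          · rfl
      have := congrArg (fun ψ : AddChar (Fin (n i) → K) ℂ => ψ (Pi.single (j i) (T j))) (hc j)
      simp only [AddChar.compAddMonoidHom_apply, AddChar.zero_apply] at this
      rw [e1, this]
    rw [hT]
    exact Finset.sum_induction _ (fun T => χ T = 1)
      (fun a b ha hb => by rw [AddChar.map_add_eq_mul, ha, hb, one_mul])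
      (AddChar.map_zero_eq_one χ) (fun j _ => this j)
  have h1 := orbit_card (A := Fin (n i) → K)
    (fun e : (Fin (n i) → K) ≃ₗ[K] (Fin (n i) → K) => e.toAddEquiv)
    (fun g h => ⟨g * h, fun a => rfl⟩) (fun v w hv hw => vec_trans v w hv hw) _ hj
  rw [Fintype.card_fun, Fintype.card_fin] at h1
  refine h1.trans ?_
  have h2 : (Set.range fun e : (Fin (n i) → K) ≃ₗ[K] (Fin (n i) → K) =>
      (χ.compAddMonoidHom (iota i j₀)).compAddMonoidHom e.toAddEquiv.toAddMonoidHom) =
      (fun ψ : AddChar ((∀ i, Fin (n i)) → K) ℂ => ψ.compAddMonoidHom (iota i j₀)) ''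
        (Set.range fun e : (Fin (n i) → K) ≃ₗ[K] (Fin (n i) → K) =>
        χ.compAddMonoidHom (thetaT i e).toAddMonoidHom) := by
    rw [← Set.range_comp]
    congr 1
    funext e
    ext v
    simp only [AddChar.compAddMonoidHom_apply, Function.comp]
    show χ (iota i j₀ (e v)) = χ (thetaT i e (iota i j₀ v))
    rw [act_iota]
  rw [h2]
  exact Set.ncard_image_le (Set.toFinite _)

/-- an invariant of tensors with small spectrum is constant -/
theorem tensor_const (f : ((∀ i, Fin (n i)) → K) → ℝ) (i : I)
    (hf : ∀ (e : (Fin (n i) → K) ≃ₗ[K] (Fin (n i) → K)) T, f (act i e.toLinearMap T) = f T)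
    (hr : (Matrix.of fun S T : (∀ i, Fin (n i)) → K => f (S - T)).rank + 1 < Fintype.card K ^ n i)
    (S T : (∀ i, Fin (n i)) → K) : f S = f T := by
  classical
  have hcore := core (A := (∀ i, Fin (n i)) → K) (X := (∀ i, Fin (n i)) → K)
    (Y := (∀ i, Fin (n i)) → K) (Γ := (Fin (n i) → K) ≃ₗ[K] (Fin (n i) → K))
    (fun S T => f (S - T)) (fun a x y => by simp [vadd_eq_add]) (thetaT i)
    (fun e => (thetaT i e).toEquiv) (fun e => (thetaT i e).toEquiv)
    (fun e a x => by
      show thetaT i e (a + x) = thetaT i e a + thetaT i e x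
      rw [map_add])
    (fun e x y => by
      show f (thetaT i e x - thetaT i e y) = f (x - y)
      rw [← map_sub]
      exact hf e _) (S - T) (fun χ hχ => by
        by_contra hne
        have hχ0 : χ ≠ 0 := by
          rintro rfl
          exact hne rfl
        have := tensor_orbit i χ hχ0
        omega) T 0
  simpa [vadd_eq_add] using hcore

end

end Pool.Agent.R111.LS
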